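import Pool.Agent.H61.SC.Ex
import Pool.Agent.H61.SC.Stmts

/-!
# Project SC, row TLM: the trace lemma
-/

set_option autoImplicit false

namespace Pool.SC

open Finset

namespace TLM90

theorem cube_root {r : ℝ} (hr : 0 ≤ r) :
    ∃ t : ℝ, 0 ≤ t ∧ t ^ 3 = r ∧ r ^ ((4 : ℝ) / 3) = t ^ 4 := by
  refine ⟨r ^ ((1 : ℝ) / 3), Real.rpow_nonneg hr _, ?_, ?_⟩
  · rw [← Real.rpow_natCast, ← Real.rpow_mul hr]
    norm_num
  · rw [← Real.rpow_natCast, ← Real.rpow_mul hr]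
    norm_num

theorem ph_nonneg {p a b : ℝ} (hp0 : 0 < p) (hp1 : p < 1) (ha : 0 < a) (hab : a < b) (w l H : ℕ) :
    0 ≤ ph p a b w l H := by
  refine ex_nonneg hp0.le hp1.le fun T _ => ?_
  refine Real.sInf_nonneg ?_
  rintro x ⟨S, -, -, rfl⟩
  refine Finset.sum_nonneg fun e _ => ?_
  unfold cap
  split_ifs
  · linarith
  · exact ha.le

end TLM90

open TLM90 in
theorem tlm_thm (hSTP : S_STP) (hNU : S_NU) : S_TLM := by
  intro p a b hp0 hp1 ha hab
  obtain ⟨C, hC, H⟩ := hSTP p a b hp0 hp1 ha hab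
  have hb : 0 < b := ha.trans hab
  obtain ⟨N, hN⟩ : ∃ N : ℕ, N = 32768 := ⟨_, rfl⟩
  have hNR : (N : ℝ) = 32768 := by rw [hN]; norm_num
  obtain ⟨M, hM⟩ : ∃ M : ℕ, M = (4 * N) ^ 2 := ⟨_, rfl⟩
  have hMR : (M : ℝ) = 16 * (N : ℝ) ^ 2 := by rw [hM]; push_cast; ring
  obtain ⟨C₁, hC₁⟩ : ∃ C₁ : ℝ, C₁ = 14 * N * C + 4 * b * (M : ℝ) ^ 2 := ⟨_, rfl⟩
  have hC₁0 : 0 < C₁ := by
    rw [hC₁, hNR]
    positivity
  refine ⟨C₁, hC₁0, ?_⟩
  intro r
  induction r using Nat.strong_induction_on with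
  | _ r ih =>
  intro h Λ hr hh hΛ hlog w l hw1 hw2 hl1 hl2
  have hnu := hNU p a b h hp0 hp1 ha hab hh
  have hrR : (1 : ℝ) ≤ r := by exact_mod_cast hr
  obtain ⟨t, ht0, ht3, ht4⟩ := cube_root (r := (r : ℝ)) (by linarith)
  rw [ht4]
  have ht1 : 1 ≤ t := by
    by_contra hlt
    have h1 : t < 1 := not_le.1 hlt
    have h2 : t ^ 3 < 1 := pow_lt_one₀ ht0 h1 (by norm_num)
    linarith
  have hwR : (w : ℝ) ≤ 2 * r := by exact_mod_cast hw2.le
  have hlR : (l : ℝ) ≤ 2 * r := by exact_mod_cast hl2.le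
  have ht4p : 1 ≤ t ^ 4 := one_le_pow₀ ht1
  rcases Nat.lt_or_ge r M with hrM | hrM
  · -- small `r`
    have hrMR : (r : ℝ) ≤ M := by exact_mod_cast hrM.le
    have h1 : nu p a b h * (w * l) ≤ b * ((2 * r) * (2 * r)) := by
      refine mul_le_mul hnu.2.1 ?_ (by positivity) hb.le
      exact mul_le_mul hwR hlR (by positivity) (by positivity)
    have h2 : b * ((2 * (r : ℝ)) * (2 * r)) ≤ 4 * b * (M : ℝ) ^ 2 := by
      have h3 : (r : ℝ) ^ 2 ≤ (M : ℝ) ^ 2 := by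
        exact pow_le_pow_left₀ (by positivity) hrMR 2
      nlinarith
    have h3 : 4 * b * (M : ℝ) ^ 2 ≤ C₁ := by
      rw [hC₁]
      have : 0 ≤ 14 * N * C := by positivity
      linarith
    have h4 : C₁ ≤ C₁ * t ^ 4 * Λ := by
      have h5 : 1 ≤ t ^ 4 * Λ := one_le_mul_of_one_le_of_one_le ht4p hΛ
      have h6 : C₁ * 1 ≤ C₁ * (t ^ 4 * Λ) := mul_le_mul_of_nonneg_left h5 hC₁0.le
      linarith
    have h5 := ph_nonneg hp0 hp1 ha hab w l h
    linarith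
  · -- large `r`
    obtain ⟨s, hs⟩ : ∃ s : ℕ, s = r / N := ⟨_, rfl⟩
    have hN0 : 0 < N := by rw [hN]; norm_num
    have hs1 : s * N ≤ r := by rw [hs]; exact Nat.div_mul_le_self r N
    have hs2 : r < (s + 1) * N := by
      rw [hs]
      have := Nat.lt_div_mul_add hN0 (a := r)
      linarith
    have hs1R : (s : ℝ) * N ≤ r := by exact_mod_cast hs1
    have hs2R : (r : ℝ) < (s + 1) * N := by exact_mod_cast hs2
    have hrMR : 16 * (N : ℝ) ^ 2 ≤ r := by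
      rw [← hMR]
      exact_mod_cast hrM
    have hNR1 : (1 : ℝ) ≤ N := by rw [hNR]; norm_num
    have hNp : (0 : ℝ) < N := by linarith
    have hs3 : (r : ℝ) / (2 * N) ≤ s := by
      rw [div_le_iff₀ (by positivity)]
      nlinarith
    have hr0 : (0 : ℝ) < r := by linarith
    have hsp : (0 : ℝ) < s := lt_of_lt_of_le (by positivity) hs3
    have hs0 : 1 ≤ s := by exact_mod_cast hsp
    have hsr : s < r := by
      have h1 : s * 1 < s * N := Nat.mul_lt_mul_of_pos_left (by rw [hN]; norm_num) (by omega)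
      omega
    have h8 : 8 * s ≤ r := by
      have h1 : 8 * s ≤ s * N := by
        rw [mul_comm 8 s]
        exact Nat.mul_le_mul_left _ (by rw [hN]; norm_num)
      omega
    -- `s'`
    obtain ⟨s', hs'⟩ : ∃ s' : ℕ, s' = ⌈t⌉₊ := ⟨_, rfl⟩
    have hs'1 : t ≤ s' := by rw [hs']; exact Nat.le_ceil t
    have hs'2 : (s' : ℝ) ≤ 2 * t := by
      have h1 := Nat.ceil_lt_add_one ht0
      rw [← hs'] at h1
      linarith
    have hs'0 : 1 ≤ s' := by
      have h1 : (1 : ℝ) ≤ s' := ht1.trans hs'1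
      exact_mod_cast h1
    have htN : 4 * (N : ℝ) ≤ t ^ 2 := by
      by_contra hlt
      have h1 : t ^ 2 < 4 * N := not_le.1 hlt
      have h2 : (t ^ 2) ^ 3 < (4 * (N : ℝ)) ^ 3 := pow_lt_pow_left₀ h1 (by positivity) (by norm_num)
      have h3 : (t ^ 2) ^ 3 = (r : ℝ) ^ 2 := by rw [← ht3]; ring
      have h4 : (16 * (N : ℝ) ^ 2) ^ 2 ≤ (r : ℝ) ^ 2 := pow_le_pow_left₀ (by positivity) hrMR 2
      rw [h3] at h2
      have h5 : (16 * (N : ℝ) ^ 2) ^ 2 = 256 * (N : ℝ) ^ 4 := by ring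
      have h6 : (4 * (N : ℝ)) ^ 3 = 64 * (N : ℝ) ^ 3 := by ring
      have h7 : (N : ℝ) ^ 3 ≤ (N : ℝ) ^ 4 := pow_le_pow_right₀ hNR1 (by norm_num)
      have h8 : (0 : ℝ) < (N : ℝ) ^ 4 := by positivity
      linarith
    have ht0' : 0 < t := by linarith
    have hss' : s' ≤ s := by
      have h1 : 2 * t ≤ t ^ 3 / (2 * N) := by
        rw [le_div_iff₀ (by positivity)]
        nlinarith
      have h2 : (s' : ℝ) ≤ s := by
        rw [ht3] at h1
        linarith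
      exact_mod_cast h2
    obtain ⟨u, hu0, hu3, hu4⟩ := cube_root (r := (s : ℝ)) hsp.le
    have hlog' : Real.log (2 + 8 * s * h) ≤ Λ ^ 2 := by
      refine le_trans (Real.log_le_log (by positivity) ?_) hlog
      have h1 : (s : ℝ) ≤ r := by exact_mod_cast hsr.le
      have h2 : (8 : ℝ) * s * h ≤ 8 * r * h := by
        exact mul_le_mul_of_nonneg_right (by linarith) (by positivity)
      linarith
    have hE0 : 0 ≤ C₁ * (s : ℝ) ^ ((4 : ℝ) / 3) * Λ := by positivity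
    have key := H r s s' h Λ (C₁ * (s : ℝ) ^ ((4 : ℝ) / 3) * Λ) hs'0 hss' h8 hh hE0 hΛ hlog
      (fun w' l' h1 h2 h3 h4 => ih s hsr h Λ hs0 hh hΛ hlog' w' l' h1 h2 h3 h4)
      w l hw1 hw2 hl1 hl2
    refine le_trans ?_ key
    -- the first error
    have hu32 : u ≤ t / 32 := by
      refine le_of_not_gt fun hlt => ?_
      have h1 : (t / 32) ^ 3 < u ^ 3 := pow_lt_pow_left₀ hlt (by positivity) (by norm_num)
      rw [hu3] at h1
      have h2 : (t / 32) ^ 3 = r / N := by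
        rw [← ht3, hNR]
        ring
      rw [h2, div_lt_iff₀ hNp] at h1
      linarith
    have hup : 0 < u := by
      rcases hu0.lt_or_eq with h1 | h1
      · exact h1
      · rw [← h1] at hu3
        norm_num at hu3
        linarith
    have e1 : 16 * ((r : ℝ) / s) * (C₁ * (s : ℝ) ^ ((4 : ℝ) / 3) * Λ) ≤ C₁ * t ^ 4 * Λ / 2 := by
      rw [hu4, ← hu3, ← ht3]
      have h1 : 16 * (t ^ 3 / u ^ 3) * (C₁ * u ^ 4 * Λ) = 16 * C₁ * Λ * t ^ 3 * u := by
        field_simp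
      rw [h1]
      have h2 : 16 * C₁ * Λ * t ^ 3 * u ≤ 16 * C₁ * Λ * t ^ 3 * (t / 32) :=
        mul_le_mul_of_nonneg_left hu32 (by positivity)
      refine h2.trans (le_of_eq ?_)
      ring
    -- the second error
    have hsl : t ^ 3 / (2 * N) ≤ s := by rw [ht3]; exact hs3
    have e2 : (s' : ℝ) * (r : ℝ) ^ 2 / s ≤ 4 * N * t ^ 4 := by
      rw [div_le_iff₀ hsp, ← ht3]
      have h1 : (s' : ℝ) * (t ^ 3) ^ 2 ≤ 2 * t * (t ^ 3) ^ 2 :=
        mul_le_mul_of_nonneg_right hs'2 (by positivity)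
      have h2 : 4 * N * t ^ 4 * (t ^ 3 / (2 * N)) ≤ 4 * N * t ^ 4 * s :=
        mul_le_mul_of_nonneg_left hsl (by positivity)
      have h3 : 4 * (N : ℝ) * t ^ 4 * (t ^ 3 / (2 * N)) = 2 * t * (t ^ 3) ^ 2 := by
        field_simp
        ring
      linarith
    have hs'p : (0 : ℝ) < s' := by linarith
    have e3 : Real.sqrt ((r : ℝ) ^ 2 / (s * s') + 1) ≤ 3 * N * t := by
      refine Real.sqrt_le_iff.2 ⟨by positivity, ?_⟩
      have h1 : (r : ℝ) ^ 2 / (s * s') ≤ 2 * N * t ^ 2 := by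
        rw [div_le_iff₀ (by positivity), ← ht3]
        have h2 : t ^ 3 / (2 * N) * t ≤ s * s' :=
          mul_le_mul hsl hs'1 ht0 hsp.le
        have h3 : 2 * (N : ℝ) * t ^ 2 * (t ^ 3 / (2 * N) * t) ≤ 2 * N * t ^ 2 * (s * s') :=
          mul_le_mul_of_nonneg_left h2 (by positivity)
        have h4 : 2 * (N : ℝ) * t ^ 2 * (t ^ 3 / (2 * N) * t) = (t ^ 3) ^ 2 := by
          field_simp
        linarith
      have h2 : 1 ≤ t ^ 2 := one_le_pow₀ ht1
      have h3 : 2 * (N : ℝ) * t ^ 2 + 1 ≤ 3 * N * t ^ 2 := by nlinarith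
      have h4 : 3 * (N : ℝ) * t ^ 2 ≤ (3 * N * t) ^ 2 := by
        have h5 : (3 * (N : ℝ) * t) ^ 2 = (3 * N) * (3 * N * t ^ 2) := by ring
        rw [h5]
        have h6 : 0 ≤ 3 * (N : ℝ) * t ^ 2 := by positivity
        nlinarith
      linarith
    have e4 : (r : ℝ) * Real.sqrt ((r : ℝ) ^ 2 / (s * s') + 1) * Λ ≤ 3 * N * t ^ 4 * Λ := by
      have h1 : (r : ℝ) * Real.sqrt ((r : ℝ) ^ 2 / (s * s') + 1) ≤ r * (3 * N * t) :=
        mul_le_mul_of_nonneg_left e3 hr0.le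
      have h2 : (r : ℝ) * (3 * N * t) = 3 * N * t ^ 4 := by
        rw [← ht3]
        ring
      rw [h2] at h1
      exact mul_le_mul_of_nonneg_right h1 (by linarith)
    have e5 : (4 : ℝ) * N * t ^ 4 ≤ 4 * N * t ^ 4 * Λ := by
      have h1 : 0 ≤ 4 * (N : ℝ) * t ^ 4 := by positivity
      nlinarith
    have e6 : C * ((s' : ℝ) * (r : ℝ) ^ 2 / s
        + r * Real.sqrt ((r : ℝ) ^ 2 / (s * s') + 1) * Λ) ≤ C₁ * t ^ 4 * Λ / 2 := by
      have h1 : (s' : ℝ) * (r : ℝ) ^ 2 / s + r * Real.sqrt ((r : ℝ) ^ 2 / (s * s') + 1) * Λ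
          ≤ 7 * N * t ^ 4 * Λ := by linarith
      have h2 := mul_le_mul_of_nonneg_left h1 hC.le
      have h3 : 14 * N * C ≤ C₁ := by
        rw [hC₁]
        have : 0 ≤ 4 * b * (M : ℝ) ^ 2 := by positivity
        linarith
      have h4 : 14 * N * C * (t ^ 4 * Λ) ≤ C₁ * (t ^ 4 * Λ) :=
        mul_le_mul_of_nonneg_right h3 (by positivity)
      have h5 : C * (7 * N * t ^ 4 * Λ) = 14 * N * C * (t ^ 4 * Λ) / 2 := by ring
      have h6 : C₁ * (t ^ 4 * Λ) / 2 = C₁ * t ^ 4 * Λ / 2 := by ring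
      linarith
    linarith

end Pool.SC
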